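import Pool.Agent.helper51.RMX.Spec

/-!
# Row rmx:FNX: the final theorem (after the row RBF of the rb project)
-/

set_option autoImplicit false

namespace Pool.Agent.RMX

open Pool.Agent.RB NumberField IsDedekindDomain Module
open scoped nonZeroDivisors Real Classical IsMulCommutative

/-- the order of a character `χ` with `χ c = -1` which is not of 2-power order -/
lemma FNX_order {G : Type} [CommGroup G] [Finite G] (c : G) (a q b : ℕ) (hq : q.Prime) (hq2 : q ≠ 2)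
    (hG : ∀ g : G, g ^ (2 ^ a * q ^ b) = 1) (χ : G →* ℂˣ) (hχ : χ c = -1) (hno : ¬ ∃ i : ℕ, χ ^ 2 ^ i = 1) :
    ∃ a' j : ℕ, 1 ≤ a' ∧ 1 ≤ j ∧ j ≤ b ∧ orderOf χ = 2 ^ a' * q ^ j := by
  have h1 : χ ^ (2 ^ a * q ^ b) = 1 := by
    ext g
    rw [MonoidHom.pow_apply, ← map_pow, hG g, map_one]
    rfl
  have h2 : orderOf χ ∣ 2 ^ a * q ^ b := orderOf_dvd_of_pow_eq_one h1
  obtain ⟨y, z, hy, hz, hyz⟩ := (Nat.dvd_mul).1 h2
  obtain ⟨a', _, rfl⟩ := (Nat.dvd_prime_pow Nat.prime_two).1 hy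
  obtain ⟨j, hj, rfl⟩ := (Nat.dvd_prime_pow hq).1 hz
  refine ⟨a', j, ?_, ?_, hj, hyz.symm⟩
  · by_contra h
    have h0 : a' = 0 := by omega
    rw [h0, pow_zero, one_mul] at hyz
    have h3 : χ ^ q ^ j = 1 := by rw [hyz]; exact pow_orderOf_eq_one χ
    have h4 : (χ ^ q ^ j) c = 1 := by rw [h3]; rfl
    have hodd : Odd (q ^ j) := (hq.odd_of_ne_two hq2).pow
    rw [MonoidHom.pow_apply, hχ, hodd.neg_one_pow] at h4
    have h5 : ((-1 : ℂˣ) : ℂ) = ((1 : ℂˣ) : ℂ) := by rw [h4]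
    rw [Units.val_neg, Units.val_one] at h5
    norm_num at h5
  · by_contra h
    have h0 : j = 0 := by omega
    rw [h0, pow_zero, mul_one] at hyz
    exact hno ⟨a', by rw [hyz]; exact pow_orderOf_eq_one χ⟩

/-- the first part -/
theorem FNX_first (hCFG : CFG_stmt) (hCFX : CFX_stmt) (hCEX : CEX_stmt) (hPRJ : PRJ_stmt) :
    ∀ (F H : Type) [Field F] [NumberField F] [Field H] [NumberField H] [Algebra F H] [IsAbelianGalois F H] [IsTotallyReal F] [IsCMField H]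
  (r : ℕ), 1 ≤ r → ∀ (D : RData F H r) (m l : ℕ), Nat.card (H ≃ₐ[F] H) = 2 ^ m * l → Odd l →
  ∀ q b : ℕ, q.Prime → q ≠ 2 → orderOf (2 : ZMod (q ^ b)) = Nat.totient (q ^ b) →
  ∀ (Lf : ((H ≃ₐ[F] H) →* ℂˣ) → ℂ → ℂ), isL Lf → ∀ Θ : MonoidAlgebra ℚ (H ≃ₐ[F] H), (∀ χ, evQ χ Θ = LST Lf D.S D.T χ⁻¹) →
  ∀ (W : Type) [AddCommGroup W] [Module (MonoidAlgebra ℚ (H ≃ₐ[F] H)) W]
    (ι : Additive (Ut F H (D.T : Set (HOS F)) (Set.range D.v)) →+ W), isQU (F := F) (Ut F H (D.T : Set (HOS F)) (Set.range D.v)) ι →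
  ∀ o : Fin r → W →ₗ[MonoidAlgebra ℚ (H ≃ₐ[F] H)] MonoidAlgebra ℚ (H ≃ₐ[F] H),
    (∀ j (x : (Ut F H (D.T : Set (HOS F)) (Set.range D.v))), o j (ι (Additive.ofMul x)) = zq (ordZ F (D.w j) ((x : Hˣ) : H))) →
  ∀ u : ⋀[MonoidAlgebra ℚ (H ≃ₐ[F] H)]^r (Wm D.c W), DT (fun j => (o j).comp (Wm D.c W).subtype) u = Θ →
  (∀ (a h k : ℕ) (g₀ : H ≃ₐ[F] H), (∀ g : H ≃ₐ[F] H, g ^ (2 ^ a * q ^ b) = 1) → g₀ ^ 2 ^ h = D.c →
    (D.S = ∅ → m + 1 ≤ finrank ℚ F + h + k) →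
    (D.S ≠ ∅ → m * 2 ^ (a - 1) + 2 ≤ (finrank ℚ F + h + k) * 2 ^ (a - 1) + D.S.card + 2 ^ (a - 1 - h)) →
    (l ≠ 1 → m ≤ finrank ℚ F + h + k) →
    ∃ d : ℕ, Odd d ∧ (d * 2 ^ k) • u ∈ RL D.c W ι r) := by
  intro F H _ _ _ _ _ _ _ _ r hr D m l hcard hl q b hq hq2 h2q Lf hLf Θ hΘ W _ _ ι hι o ho u hu a h k g₀ ha hg₀ hS0 hS1 hl1
  obtain ⟨N, hN0, hN⟩ := UNI (H ≃ₐ[F] H) (Additive (Ut F H (D.T : Set (HOS F)) (Set.range D.v))) W ι
    hι.denom (Wm D.c W) r u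
  refine ⟨N / 2 ^ N.factorization 2, ?_, ?_⟩
  · rw [← Nat.coprime_two_right]
    exact (Nat.coprime_ordCompl Nat.prime_two hN0).symm
  intro f hf
  have hc2 : D.c * D.c = 1 := by
    ext x
    show D.c (D.c x) = x
    rw [D.hc, D.hc, IsCMField.complexConj_apply_apply]
  have hc1 : D.c ≠ 1 := by
    intro h1
    apply IsCMField.complexConj_ne_one H
    ext x
    rw [← D.hc, h1]
    rfl
  set y := DT (fun j => (f j).comp (Wm D.c W).subtype) u with hy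
  have h1 := ANT (H ≃ₐ[F] H) D.c W r hr f u
  obtain ⟨e, he, h2⟩ := hCEX (H ≃ₐ[F] H) m l h a g₀ D.c hcard hl
    (fun g => ⟨q ^ b, (hq.odd_of_ne_two hq2).pow, ha g⟩) hg₀.symm hc1 hc2 y
    (finrank ℚ F) D.S.card k h1
    (fun χ hχ hi => hCFG F H r D Lf hLf Θ hΘ W ι hι o ho u hu f hf χ hχ hi)
    (fun χ hχ hno => by
      obtain ⟨a', j, ha', hj, hjb, hord⟩ := FNX_order D.c a q b hq hq2 ha χ hχ hno
      exact hCFX F H r D Lf hLf Θ hΘ W ι hι o ho u hu f hf χ hχ a' j q hq hq2 ha' hj hord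
        (hPRJ q b j hq hq2 hjb h2q))
    (fun hs => hS0 (Finset.card_eq_zero.1 hs))
    (fun hs => hS1 (fun h0 => hs (Finset.card_eq_zero.2 h0))) hl1
  obtain ⟨x, hx⟩ := hN f hf
  rw [map_nsmul, ← hy]
  apply RBF_zq
  intro σ
  have h3 : ∃ z : ℤ, (N : ℚ) * y.coeff σ = z := by
    refine ⟨x.coeff σ, ?_⟩
    have h4 : (N • y).coeff σ = (zq x).coeff σ := by rw [hy, hx]
    unfold zq at h4
    rw [MonoidAlgebra.coeff_mapRingHom, MonoidAlgebra.coeff_smul_apply, nsmul_eq_mul] at h4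
    exact h4
  obtain ⟨z, hz⟩ := RBF_odd he h3 (h2 σ)
  refine ⟨z, ?_⟩
  rw [MonoidAlgebra.coeff_smul_apply, nsmul_eq_mul]
  push_cast
  exact hz

/-- an element of order 2 of a commutative group of order `2^m l` is a power of each element of order `2^m` -/
lemma FNX_cyc {G : Type} [CommGroup G] [Finite G] (m l : ℕ) (hcard : Nat.card G = 2 ^ m * l) (hl : Odd l)
    (g c : G) (hord : orderOf g = 2 ^ m) (hc1 : c ≠ 1) (hc2 : c * c = 1) : 1 ≤ m ∧ g ^ 2 ^ (m - 1) = c := by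
  have hP : Nat.card (Subgroup.zpowers g) = 2 ^ m := by rw [Nat.card_zpowers, hord]
  have hQ : Nat.card (G ⧸ Subgroup.zpowers g) = l := by
    have h1 := Subgroup.card_eq_card_quotient_mul_card_subgroup (Subgroup.zpowers g)
    rw [hP, hcard, mul_comm] at h1
    exact (Nat.eq_of_mul_eq_mul_right (by positivity) h1).symm
  have hcP : c ∈ Subgroup.zpowers g := by
    rw [← QuotientGroup.eq_one_iff]
    have h1 : ((c : G ⧸ Subgroup.zpowers g)) ^ 2 = 1 := by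
      rw [← QuotientGroup.mk_pow, pow_two, hc2]; rfl
    have h2 : ((c : G ⧸ Subgroup.zpowers g)) ^ l = 1 := by
      rw [← hQ]; exact pow_card_eq_one'
    obtain ⟨t, ht⟩ := hl
    rw [ht, pow_add, pow_mul, h1, one_pow, one_mul, pow_one] at h2
    exact h2
  have hm1 : 1 ≤ m := by
    by_contra h
    have h0 : m = 0 := by omega
    rw [h0, pow_zero, orderOf_eq_one_iff] at hord
    rw [hord, Subgroup.zpowers_one_eq_bot, Subgroup.mem_bot] at hcP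
    exact hc1 hcP
  refine ⟨hm1, ?_⟩
  have hfin : IsOfFinOrder g := isOfFinOrder_of_finite g
  obtain ⟨i, hi⟩ := hfin.mem_powers_iff_mem_zpowers.2 hcP
  have hi : g ^ i = c := hi
  have h1 : g ^ (2 * i) = 1 := by
    rw [two_mul, pow_add, hi, hc2]
  have h2 : 2 ^ m ∣ 2 * i := by
    rw [← hord]
    exact orderOf_dvd_of_pow_eq_one h1
  obtain ⟨q, rfl⟩ : ∃ q, m = q + 1 := ⟨m - 1, by omega⟩
  rw [Nat.add_sub_cancel]
  rw [pow_succ, mul_comm (2 ^ q) 2] at h2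
  have h3 : 2 ^ q ∣ i := Nat.dvd_of_mul_dvd_mul_left (by norm_num) h2
  obtain ⟨j, rfl⟩ := h3
  have h4 : (g ^ 2 ^ q) ^ 2 = 1 := by
    rw [← pow_mul, ← pow_succ, ← hord, pow_orderOf_eq_one]
  rw [pow_mul] at hi
  rcases Nat.even_or_odd j with ⟨t, ht⟩ | ⟨t, ht⟩
  · exfalso
    apply hc1
    rw [← hi, ht, ← two_mul, pow_mul, h4, one_pow]
  · rw [← hi, ht, pow_add, pow_mul, h4, one_pow, one_mul, pow_one]

/-- the exponent divides `2^m q^b` -/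
lemma FNX_exp {G : Type} [CommGroup G] [Finite G] (m l q b : ℕ) (hcard : Nat.card G = 2 ^ m * l) (hl : Odd l)
    (hG : ∀ g : G, ∃ i : ℕ, g ^ (2 ^ i * q ^ b) = 1) (g : G) : g ^ (2 ^ m * q ^ b) = 1 := by
  obtain ⟨i, hi⟩ := hG g
  have h1 : orderOf (g ^ q ^ b) ∣ 2 ^ i := by
    apply orderOf_dvd_of_pow_eq_one
    rw [← pow_mul, mul_comm, hi]
  have h2 : orderOf (g ^ q ^ b) ∣ 2 ^ m * l := by
    rw [← hcard]
    exact orderOf_dvd_natCard _
  have h3 : Nat.Coprime (orderOf (g ^ q ^ b)) l := by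
    apply Nat.Coprime.coprime_dvd_left h1
    apply Nat.Coprime.pow_left
    exact (Nat.coprime_two_left).2 hl
  have h4 : orderOf (g ^ q ^ b) ∣ 2 ^ m := h3.dvd_of_dvd_mul_right h2
  rw [mul_comm, pow_mul]
  exact orderOf_dvd_iff_pow_eq_one.1 h4

theorem FNX (hCFG : CFG_stmt) (hCFX : CFX_stmt) (hCEX : CEX_stmt) (hPRJ : PRJ_stmt) : FNX_stmt := by
  intro F H _ _ _ _ _ _ _ _ r hr D m l hcard hl q b hq hq2 h2q hexp Lf hLf Θ hΘ W _ _ ι hι o ho u hu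
  have hfirst := FNX_first hCFG hCFX hCEX hPRJ F H r hr D m l hcard hl q b hq hq2 h2q Lf hLf Θ hΘ W ι hι o ho u hu
  refine ⟨hfirst, fun ⟨g, hgo⟩ => ?_⟩
  have hc2 : D.c * D.c = 1 := by
    ext x
    show D.c (D.c x) = x
    rw [D.hc, D.hc, IsCMField.complexConj_apply_apply]
  have hc1 : D.c ≠ 1 := by
    intro h1
    apply IsCMField.complexConj_ne_one H
    ext x
    rw [← D.hc, h1]
    rfl
  obtain ⟨hm1, hg⟩ := FNX_cyc m l hcard hl g D.c hgo hc1 hc2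
  have hn : 0 < finrank ℚ F := finrank_pos
  obtain ⟨d, hd, h1⟩ := hfirst m (m - 1) 0 g (fun g => FNX_exp m l q b hcard hl hexp g) hg
    (fun hS => by
      have h2 := MNK F H (fun P => D.hram P (by rw [hS]; exact Finset.notMem_empty _))
      omega)
    (fun hS => by
      have h3 : 1 ≤ D.S.card := Finset.card_pos.2 (Finset.nonempty_iff_ne_empty.2 hS)
      rw [Nat.sub_self, pow_zero, add_zero]
      have h4 : m * 2 ^ (m - 1) ≤ (finrank ℚ F + (m - 1)) * 2 ^ (m - 1) :=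
        Nat.mul_le_mul_right _ (by omega)
      omega)
    (fun _ => by omega)
  refine ⟨d, hd, ?_⟩
  rwa [pow_zero, mul_one] at h1

end Pool.Agent.RMX
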