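import Pool.Agent.helper51.RMX.Spec

/-!
# Project rmx (MP_24e2e7_nt), row RMT
-/

set_option autoImplicit false

namespace Pool.Agent.RMX

open Pool.Agent.RB NumberField IsDedekindDomain Module
open scoped nonZeroDivisors Real Classical IsMulCommutative

section

variable {F K : Type} [Field F] [NumberField F] [Field K] [NumberField K] [Algebra F K]

theorem RMT_iff (σ : K ≃ₐ[F] K) (P : HOS K) :
    P ∈ Rm (σ : K ≃+* K) ↔ ∀ x : 𝓞 K, σ • x - x ∈ P.asIdeal := by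
  refine forall_congr' fun x => ?_
  rw [← P.valuation_lt_one_iff_mem (K := K)]
  exact Iff.rfl

theorem RMT_mul (P : HOS K) (σ τ : K ≃ₐ[F] K) (h1 : ∀ x : 𝓞 K, σ • x - x ∈ P.asIdeal)
    (h2 : ∀ x : 𝓞 K, τ • x - x ∈ P.asIdeal) (x : 𝓞 K) : (σ * τ) • x - x ∈ P.asIdeal := by
  have h3 : (σ * τ) • x - x = (σ • (τ • x) - τ • x) + (τ • x - x) := by
    rw [mul_smul]
    ring
  rw [h3]
  exact P.asIdeal.add_mem (h1 _) (h2 x)

theorem RMT_pow (P : HOS K) (σ : K ≃ₐ[F] K) (h1 : ∀ x : 𝓞 K, σ • x - x ∈ P.asIdeal) (n : ℕ) :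
    ∀ x : 𝓞 K, (σ ^ n) • x - x ∈ P.asIdeal := by
  induction n with
  | zero =>
    intro x
    rw [pow_zero, one_smul, sub_self]
    exact P.asIdeal.zero_mem
  | succ n ih =>
    rw [pow_succ]
    exact RMT_mul P _ _ ih h1

end

/-- row RMT -/
theorem RMT : RMT_stmt := by
  intro F L K _ _ _ _ _ _ _ _ _ _ _ _ c hc hodd
  have main : ∀ P : HOS K, P.under (𝓞 L) ∈ Rm ((AlgEquiv.restrictNormalHom L c : L ≃ₐ[F] L) : L ≃+* L) →
      P ∈ Rm (c : K ≃+* K) := by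
    intro P hP
    rw [RMT_iff] at hP ⊢
    obtain ⟨σ, hσ, h1⟩ := INF_lift (F := F) (K := L) (L := K) P _ hP
    have hδ : c⁻¹ * σ ∈ (AlgEquiv.restrictNormalHom L : (K ≃ₐ[F] K) →* (L ≃ₐ[F] L)).ker := by
      rw [MonoidHom.mem_ker, map_mul, map_inv, hσ, inv_mul_cancel]
    have hq : (c⁻¹ * σ) ^ Nat.card (AlgEquiv.restrictNormalHom L : (K ≃ₐ[F] K) →* (L ≃ₐ[F] L)).ker = 1 := by
      have h2 := pow_card_eq_one' (x := (⟨c⁻¹ * σ, hδ⟩ :
        (AlgEquiv.restrictNormalHom L : (K ≃ₐ[F] K) →* (L ≃ₐ[F] L)).ker))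
      exact congrArg Subtype.val h2
    generalize hn : Nat.card (AlgEquiv.restrictNormalHom L : (K ≃ₐ[F] K) →* (L ≃ₐ[F] L)).ker = n at hq hodd
    have h3 : σ ^ n = c := by
      have h4 : σ = c * (c⁻¹ * σ) := by rw [mul_inv_cancel_left]
      have h5 : Commute c (c⁻¹ * σ) := CHV_comm _ _
      rw [h4, h5.mul_pow, hq, mul_one]
      obtain ⟨k, rfl⟩ := hodd
      rw [pow_succ, pow_mul, pow_two, hc, one_pow, one_mul]
    have h6 := RMT_pow P σ h1 n
    rw [h3] at h6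
    exact h6
  refine ⟨main, fun hfin => ?_⟩
  choose f hf using fun P' : HOS L => CHV_exists (F := L) (L := K) P'
  refine Set.ncard_le_ncard_of_injOn f ?_ ?_ hfin
  · intro P' hP'
    apply main
    rw [hf]
    exact hP'
  · intro P' _ P'' _ he
    rw [← hf P', ← hf P'', he]

end Pool.Agent.RMX
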