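import Pool.Agent.helper51.RMX.Spec

/-!
# Project rmx (MP_24e2e7_nt), row SIN
-/

set_option autoImplicit false

namespace Pool.Agent.RMX

open Pool.Agent.RB NumberField IsDedekindDomain Module
open scoped nonZeroDivisors Real Classical IsMulCommutative

/-- a polynomial with integral coefficients which has the same value at all primitive roots of unity -/
theorem SIN_poly (N : ℕ) (hN : N ≠ 0) (P : Polynomial ℤ) (α : ℂ)
    (h : ∀ ξ : ℂ, IsPrimitiveRoot ξ N → Polynomial.aeval ξ P = α) : ∃ z : ℤ, α = (z : ℂ) := by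
  have hmon := Polynomial.cyclotomic.monic N ℤ
  have hdeg : (Polynomial.cyclotomic N ℤ).natDegree = Nat.totient N := Polynomial.natDegree_cyclotomic N ℤ
  have htot : 0 < Nat.totient N := Nat.totient_pos.2 (Nat.pos_of_ne_zero hN)
  have hne : Polynomial.cyclotomic N ℤ ≠ 1 := by
    intro h1
    rw [h1, Polynomial.natDegree_one] at hdeg
    omega
  have hlt : (P %ₘ Polynomial.cyclotomic N ℤ).natDegree < Nat.totient N := by
    rw [← hdeg]
    exact Polynomial.natDegree_modByMonic_lt P hmon hne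
  let D : Polynomial ℂ := (P %ₘ Polynomial.cyclotomic N ℤ).map (Int.castRingHom ℂ) - Polynomial.C α
  have hD : D = 0 := by
    refine Polynomial.eq_zero_of_natDegree_lt_card_of_eval_eq_zero' D (primitiveRoots N ℂ) ?_ ?_
    · intro ξ hξ
      have hξ' : IsPrimitiveRoot ξ N := (mem_primitiveRoots (Nat.pos_of_ne_zero hN)).1 hξ
      have h1 : Polynomial.aeval ξ (Polynomial.cyclotomic N ℤ) = 0 := by
        rw [Polynomial.aeval_def, ← Polynomial.eval_map, algebraMap_int_eq, Polynomial.map_cyclotomic_int]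
        exact hξ'.isRoot_cyclotomic (Nat.pos_of_ne_zero hN)
      have h2 : Polynomial.aeval ξ (P %ₘ Polynomial.cyclotomic N ℤ) = α := by
        have h3 := congrArg (Polynomial.aeval ξ) (Polynomial.modByMonic_add_div P (Polynomial.cyclotomic N ℤ))
        rw [map_add, map_mul, h1, zero_mul, add_zero, h ξ hξ'] at h3
        exact h3
      rw [Polynomial.aeval_def, ← Polynomial.eval_map, algebraMap_int_eq] at h2
      rw [Polynomial.eval_sub, h2, Polynomial.eval_C, sub_self]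
    · rw [Complex.card_primitiveRoots, Polynomial.natDegree_sub_C]
      exact lt_of_le_of_lt (Polynomial.natDegree_map_le) hlt
  refine ⟨(P %ₘ Polynomial.cyclotomic N ℤ).coeff 0, ?_⟩
  have h4 := congrArg (fun q => Polynomial.coeff q 0) hD
  simp only [D, Polynomial.coeff_sub, Polynomial.coeff_map, Polynomial.coeff_C_zero, Polynomial.coeff_zero] at h4
  exact (sub_eq_zero.1 h4).symm

section

variable {G : Type} [Group G] [Finite G]

theorem SIN_card (ψ : G →* ℂˣ) (σ : G) : (ψ σ) ^ Nat.card G = 1 := by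
  rw [← map_pow, pow_card_eq_one', map_one]

theorem SIN_one (ψ : G →* ℂˣ) (σ : G) (i : ℕ) (hi : Nat.Coprime i (Nat.card G)) (h : (ψ σ) ^ i = 1) :
    ψ σ = 1 := by
  have h1 : (ψ σ) ^ Nat.gcd i (Nat.card G) = 1 := pow_gcd_eq_one.2 ⟨h, SIN_card ψ σ⟩
  rw [hi, pow_one] at h1
  exact h1

theorem SIN_inj (i : ℕ) (hi : Nat.Coprime i (Nat.card G)) (ψ ψ' : G →* ℂˣ) (h : ψ ^ i = ψ' ^ i) : ψ = ψ' := by
  ext σ
  have h1 : ((ψ * ψ'⁻¹) σ) ^ i = 1 := by
    have h2 : (ψ σ) ^ i = (ψ' σ) ^ i := by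
      rw [← MonoidHom.pow_apply, ← MonoidHom.pow_apply, h]
    rw [MonoidHom.mul_apply, MonoidHom.inv_apply, mul_pow, inv_pow, h2, mul_inv_cancel]
  have h3 := SIN_one (ψ * ψ'⁻¹) σ i hi h1
  rw [MonoidHom.mul_apply, MonoidHom.inv_apply, mul_inv_eq_one] at h3
  rw [h3]

end

section

variable {F K : Type} [Field F] [NumberField F] [Field K] [NumberField K] [Algebra F K]

theorem SIN_unr (ψ : (K ≃ₐ[F] K) →* ℂˣ) (p : HOS F) (i : ℕ) (hi : Nat.Coprime i (Nat.card (K ≃ₐ[F] K))) :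
    unr (ψ ^ i) p ↔ unr ψ p := by
  constructor
  · intro h P hP σ hσ
    have h1 := h P hP σ hσ
    rw [MonoidHom.pow_apply] at h1
    exact SIN_one ψ σ i hi h1
  · intro h P hP σ hσ
    rw [MonoidHom.pow_apply, h P hP σ hσ, one_pow]

theorem SIN_chv (ψ : (K ≃ₐ[F] K) →* ℂˣ) (p : HOS F) (i : ℕ) (hi : Nat.Coprime i (Nat.card (K ≃ₐ[F] K))) :
    chv (ψ ^ i) p = if unr ψ p then ((ψ (Classical.epsilon (isFr p)) : ℂˣ) : ℂ) ^ i else 0 := by
  unfold chv
  by_cases h : unr ψ p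
  · rw [if_pos h, if_pos ((SIN_unr ψ p i hi).2 h), MonoidHom.pow_apply, Units.val_pow_eq_pow_val]
  · rw [if_neg h, if_neg fun h' => h ((SIN_unr ψ p i hi).1 h')]

end

/-- row SIN -/
theorem SIN : SIN_stmt := by
  intro F K _ _ _ _ _ _ X hX S
  have hN : Nat.card (K ≃ₐ[F] K) ≠ 0 := Nat.card_pos.ne'
  have : NeZero (Nat.card (K ≃ₐ[F] K)) := ⟨hN⟩
  let ζ : ℂ := Complex.exp (2 * Real.pi * Complex.I / (Nat.card (K ≃ₐ[F] K)))
  have hζ : IsPrimitiveRoot ζ (Nat.card (K ≃ₐ[F] K)) := Complex.isPrimitiveRoot_exp _ hN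
  have hk : ∀ (ψ : (K ≃ₐ[F] K) →* ℂˣ) (p : HOS F), ∃ k : ℕ,
      ζ ^ k = ((ψ (Classical.epsilon (isFr p)) : ℂˣ) : ℂ) := by
    intro ψ p
    obtain ⟨k, _, hk⟩ := hζ.eq_pow_of_pow_eq_one (ξ := ((ψ (Classical.epsilon (isFr p)) : ℂˣ) : ℂ)) (by
      rw [← Units.val_pow_eq_pow_val, SIN_card, Units.val_one])
    exact ⟨k, hk⟩
  choose k hk using hk
  let P : Polynomial ℤ := ∏ ψ ∈ X, ∏ p ∈ S, if unr ψ p then 1 - Polynomial.X ^ (k ψ p) else 1
  refine SIN_poly (Nat.card (K ≃ₐ[F] K)) hN P _ ?_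
  intro ξ hξ
  obtain ⟨i, _, hi, rfl⟩ := (hζ.isPrimitiveRoot_iff).1 hξ
  have h1 : Polynomial.aeval (ζ ^ i) P = ∏ ψ ∈ X, ∏ p ∈ S, (1 - chv (ψ ^ i) p) := by
    rw [map_prod]
    refine Finset.prod_congr rfl fun ψ _ => ?_
    rw [map_prod]
    refine Finset.prod_congr rfl fun p _ => ?_
    rw [SIN_chv ψ p i hi]
    by_cases h : unr ψ p
    · rw [if_pos h, if_pos h, map_sub, map_one, map_pow, Polynomial.aeval_X, ← hk ψ p, ← pow_mul, ← pow_mul,
        mul_comm]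
    · rw [if_neg h, if_neg h, map_one, sub_zero]
  have h2 : X.image (fun ψ => ψ ^ i) = X := by
    apply Finset.eq_of_subset_of_card_le
    · intro ψ hψ
      obtain ⟨ψ', hψ', rfl⟩ := Finset.mem_image.1 hψ
      exact hX ψ' hψ' i hi
    · rw [Finset.card_image_of_injective _ fun a b hab => SIN_inj i hi a b hab]
  rw [h1]
  calc ∏ ψ ∈ X, ∏ p ∈ S, (1 - chv (ψ ^ i) p) = ∏ ψ ∈ X.image (fun ψ => ψ ^ i), ∏ p ∈ S, (1 - chv ψ p) := by
        rw [Finset.prod_image fun a _ b _ hab => SIN_inj i hi a b hab]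
    _ = _ := by rw [h2]

end Pool.Agent.RMX
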